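import Pool.Agent.H14.Jordan.Log

/-! Two continua which cross a box in the two directions meet. -/

open Set Topology Filter

namespace Pool.Agent.H90.WC

/-- Two curves which cross a box in the two directions meet. -/
theorem cross_curves {α β : ℝ → ℂ} (hα : Continuous α) (hβ : Continuous β) {a b : ℝ}
    (hαb : ∀ s, |(α s).im| < b) (hβa : ∀ s, |(β s).re| < a)
    (hl : ∀ s ≤ 0, (α s).re ≤ -a) (hr : ∀ s, 1 ≤ s → a ≤ (α s).re)
    (hd : ∀ s ≤ 0, (β s).im ≤ -b) (hu : ∀ s, 1 ≤ s → b ≤ (β s).im) :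
    ∃ s t, α s = β t := by
  by_contra hcon
  push Not at hcon
  set Φ : ℂ → ℂ := fun z => α ((z.re + 1) / 2) - β ((1 - z.im) / 2) with hΦ
  set m : ℂ → ℝ := fun z => min 1 (max 0 (max |z.re| |z.im| - 1)) with hm
  set φ : ℂ → ℂ := fun z => (1 - (m z : ℂ)) * Φ z + (m z : ℂ) * z with hφ
  have hmc : Continuous m := by
    have h1 := Complex.continuous_re
    have h2 := Complex.continuous_im
    exact continuous_const.min (continuous_const.max
      (((h1.abs).max (h2.abs)).sub continuous_const))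
  have hΦc : Continuous Φ := by
    have h1 := Complex.continuous_re
    have h2 := Complex.continuous_im
    exact (hα.comp ((h1.add continuous_const).div_const _)).sub
      (hβ.comp ((continuous_const.sub h2).div_const _))
  have hφc : Continuous φ := by
    have h1 : Continuous fun z => (m z : ℂ) := Complex.continuous_ofReal.comp hmc
    exact ((continuous_const.sub h1).mul hΦc).add (h1.mul continuous_id)
  have hm0 : ∀ z, 0 ≤ m z := fun z => le_min zero_le_one (le_max_left _ _)
  have hm1 : ∀ z, m z ≤ 1 := fun z => min_le_left _ _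
  have hre : ∀ z, (φ z).re = (1 - m z) * (Φ z).re + m z * z.re := by
    intro z
    simp [hφ]
  have him : ∀ z, (φ z).im = (1 - m z) * (Φ z).im + m z * z.im := by
    intro z
    simp [hφ]
  have hΦre : ∀ z, (Φ z).re = (α ((z.re + 1) / 2)).re - (β ((1 - z.im) / 2)).re := fun z => by
    simp [hΦ]
  have hΦim : ∀ z, (Φ z).im = (α ((z.re + 1) / 2)).im - (β ((1 - z.im) / 2)).im := fun z => by
    simp [hΦ]
  -- convex combinations of positive numbers are positive
  have conv : ∀ (t x y : ℝ), 0 ≤ t → t ≤ 1 → 0 < x → 0 < y → 0 < (1 - t) * x + t * y := by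
    intro t x y h0 h1 hx hy
    rcases eq_or_lt_of_le h0 with h | h
    · rw [← h]; simpa using hx
    · have := mul_pos h hy
      have := mul_nonneg (sub_nonneg.2 h1) hx.le
      linarith
  have hne : ∀ z, φ z ≠ 0 := by
    intro z hz
    have z1 : (φ z).re = 0 := by rw [hz]; rfl
    have z2 : (φ z).im = 0 := by rw [hz]; rfl
    rw [hre] at z1
    rw [him] at z2
    by_cases h1 : 1 ≤ z.re
    · have h2 := hr ((z.re + 1) / 2) (by linarith)
      have h3 := abs_lt.1 (hβa ((1 - z.im) / 2))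
      have := conv (m z) ((Φ z).re) z.re (hm0 z) (hm1 z) (by rw [hΦre]; linarith) (by linarith)
      linarith
    by_cases h2 : z.re ≤ -1
    · have h2' := hl ((z.re + 1) / 2) (by linarith)
      have h3 := abs_lt.1 (hβa ((1 - z.im) / 2))
      have := conv (m z) (-(Φ z).re) (-z.re) (hm0 z) (hm1 z) (by rw [hΦre]; linarith)
        (by linarith)
      linarith
    by_cases h3 : 1 ≤ z.im
    · have h2' := hd ((1 - z.im) / 2) (by linarith)
      have h3 := abs_lt.1 (hαb ((z.re + 1) / 2))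
      have := conv (m z) ((Φ z).im) (z.im) (hm0 z) (hm1 z) (by rw [hΦim]; linarith)
        (by linarith)
      linarith
    by_cases h4 : z.im ≤ -1
    · have h2' := hu ((1 - z.im) / 2) (by linarith)
      have h3 := abs_lt.1 (hαb ((z.re + 1) / 2))
      have := conv (m z) (-(Φ z).im) (-z.im) (hm0 z) (hm1 z) (by rw [hΦim]; linarith)
        (by linarith)
      linarith
    have h5 : m z = 0 := by
      rw [hm]
      have h6 : max |z.re| |z.im| - 1 ≤ 0 := by
        have : max |z.re| |z.im| ≤ 1 := max_le (abs_le.2 ⟨by linarith, by linarith⟩)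
          (abs_le.2 ⟨by linarith, by linarith⟩)
        linarith
      simp only
      rw [max_eq_left h6]
      simp
    have h6 : φ z = Φ z := by simp [hφ, h5]
    rw [h6, hΦ] at hz
    exact hcon _ _ (sub_eq_zero.1 hz)
  refine Pool.Agent.H14.Jordan.no_winding hφc hne 0 (R := 10) (by norm_num) ?_
  intro ζ hζ
  rw [sub_zero] at hζ ⊢
  have h1 : m ζ = 1 := by
    have h2 : 2 ≤ max |ζ.re| |ζ.im| := by
      by_contra hlt
      rw [not_le, max_lt_iff] at hlt
      have := Complex.norm_le_abs_re_add_abs_im ζ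
      linarith
    rw [hm]
    simp only
    rw [min_eq_left]
    exact le_max_of_le_right (by linarith)
  simp [hφ, h1]

theorem isPreconnected_thickening {A : Set ℂ} (hA : IsPreconnected A) (ε : ℝ) :
    IsPreconnected (Metric.thickening ε A) := by
  rcases le_or_gt ε 0 with h | h
  · rw [Metric.thickening_of_nonpos h]; exact isPreconnected_empty
  intro U V hU hV hUV hSU hSV
  -- a point of `A` in `U` and one in `V`
  have key : ∀ {U V : Set ℂ}, IsOpen U → IsOpen V → Metric.thickening ε A ⊆ U ∪ V →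
      (Metric.thickening ε A ∩ U).Nonempty → ¬ (Metric.thickening ε A ∩ (U ∩ V)).Nonempty →
      (A ∩ U).Nonempty := by
    intro U V hU hV hUV ⟨x, hx, hxU⟩ hn
    obtain ⟨z, hzA, hz⟩ := Metric.mem_thickening_iff.1 hx
    have hball : Metric.ball z ε ⊆ Metric.thickening ε A := Metric.ball_subset_thickening hzA ε
    have hp : IsPreconnected (Metric.ball z ε) := (convex_ball z ε).isPreconnected
    refine ⟨z, hzA, ?_⟩
    by_contra hzU
    have hzV : z ∈ V := (hUV (hball (Metric.mem_ball_self h))).resolve_left hzU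
    obtain ⟨w, hw, hwUV⟩ := hp U V hU hV (hball.trans hUV) ⟨x, hz, hxU⟩
      ⟨z, Metric.mem_ball_self h, hzV⟩
    exact hn ⟨w, hball hw, hwUV⟩
  by_contra hn
  obtain ⟨u, huA, huU⟩ := key hU hV hUV hSU hn
  obtain ⟨v, hvA, hvV⟩ := key hV hU (by rwa [union_comm]) hSV (by rwa [inter_comm V U])
  have hsub : A ⊆ Metric.thickening ε A := Metric.self_subset_thickening h A
  obtain ⟨w, hw, hwUV⟩ := hA U V hU hV (hsub.trans hUV) ⟨u, huA, huU⟩ ⟨v, hvA, hvV⟩
  exact hn ⟨w, hsub hw, hwUV⟩

theorem exists_curve {A : Set ℂ} (hA : IsPreconnected A) {ε : ℝ} (hε : 0 < ε) {x y : ℂ}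
    (hx : x ∈ A) (hy : y ∈ A) : ∃ α : ℝ → ℂ, Continuous α ∧ (∀ s ≤ 0, α s = x) ∧
      (∀ s, 1 ≤ s → α s = y) ∧ ∀ s, ∃ z ∈ A, dist (α s) z < ε := by
  have hsub : A ⊆ Metric.thickening ε A := Metric.self_subset_thickening hε A
  have hc : IsConnected (Metric.thickening ε A) := ⟨⟨x, hsub hx⟩, isPreconnected_thickening hA ε⟩
  have hp := Metric.isOpen_thickening.isConnected_iff_isPathConnected.1 hc
  obtain ⟨p, hp⟩ := hp.joinedIn x (hsub hx) y (hsub hy)
  refine ⟨p.extend, p.continuous_extend, fun s hs => p.extend_of_le_zero hs,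
    fun s hs => p.extend_of_one_le hs, fun s => ?_⟩
  have h1 : p.extend s ∈ Metric.thickening ε A := by
    have h2 : p.extend s ∈ range p := by
      rw [← p.extend_range]; exact mem_range_self s
    obtain ⟨t, ht⟩ := h2
    rw [← ht]; exact hp t
  exact Metric.mem_thickening_iff.1 h1

theorem cross_continua {A B : Set ℂ} (hA : IsCompact A) (hAc : IsPreconnected A)
    (hB : IsCompact B) (hBc : IsPreconnected B) {a b : ℝ} (_ha : 0 < a) (_hb : 0 < b)
    (hAb : ∀ z ∈ A, |z.im| < b) (hBa : ∀ z ∈ B, |z.re| < a)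
    (hl : ∃ z ∈ A, z.re ≤ -a) (hr : ∃ z ∈ A, a ≤ z.re)
    (hd : ∃ z ∈ B, z.im ≤ -b) (hu : ∃ z ∈ B, b ≤ z.im) : (A ∩ B).Nonempty := by
  by_contra hne
  rw [not_nonempty_iff_eq_empty, ← disjoint_iff_inter_eq_empty] at hne
  obtain ⟨x1, hx1, hx1'⟩ := hl
  obtain ⟨x2, hx2, hx2'⟩ := hr
  obtain ⟨y1, hy1, hy1'⟩ := hd
  obtain ⟨y2, hy2, hy2'⟩ := hu
  -- room
  obtain ⟨m1, hm1, hM1⟩ := hA.exists_isMaxOn ⟨x1, hx1⟩
    ((Complex.continuous_im.abs).continuousOn)
  obtain ⟨m2, hm2, hM2⟩ := hB.exists_isMaxOn ⟨y1, hy1⟩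
    ((Complex.continuous_re.abs).continuousOn)
  obtain ⟨δ, hδ, hdis⟩ := hne.exists_thickenings hA hB.isClosed
  have hb1 := hAb m1 hm1
  have hb2 := hBa m2 hm2
  simp only [isMaxOn_iff] at hM1 hM2
  set ε := min δ (min (b - |m1.im|) (a - |m2.re|)) with hε
  have hεpos : 0 < ε := lt_min hδ (lt_min (by linarith) (by linarith))
  have e1 : ε ≤ δ := min_le_left _ _
  have e2 : ε ≤ b - |m1.im| := (min_le_right _ _).trans (min_le_left _ _)
  have e3 : ε ≤ a - |m2.re| := (min_le_right _ _).trans (min_le_right _ _)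
  obtain ⟨α, hαc, hα0, hα1, hαA⟩ := exists_curve hAc hεpos hx1 hx2
  obtain ⟨β, hβc, hβ0, hβ1, hβB⟩ := exists_curve hBc hεpos hy1 hy2
  have him : ∀ z w : ℂ, |z.im| ≤ |w.im| + dist z w := by
    intro z w
    have h1 := Complex.abs_im_le_norm (z - w)
    have h2 := abs_sub_abs_le_abs_sub z.im w.im
    rw [Complex.sub_im, ← dist_eq_norm] at h1
    linarith
  have hre : ∀ z w : ℂ, |z.re| ≤ |w.re| + dist z w := by
    intro z w
    have h1 := Complex.abs_re_le_norm (z - w)
    have h2 := abs_sub_abs_le_abs_sub z.re w.re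
    rw [Complex.sub_re, ← dist_eq_norm] at h1
    linarith
  obtain ⟨s, t, hst⟩ := cross_curves hαc hβc (a := a) (b := b)
    (fun s => by
      obtain ⟨z, hz, hzd⟩ := hαA s
      have := him (α s) z
      have := hM1 z hz
      linarith)
    (fun s => by
      obtain ⟨z, hz, hzd⟩ := hβB s
      have := hre (β s) z
      have := hM2 z hz
      linarith)
    (fun s hs => by rw [hα0 s hs]; exact hx1')
    (fun s hs => by rw [hα1 s hs]; exact hx2')
    (fun s hs => by rw [hβ0 s hs]; exact hy1')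
    (fun s hs => by rw [hβ1 s hs]; exact hy2')
  obtain ⟨z, hz, hzd⟩ := hαA s
  obtain ⟨w, hw, hwd⟩ := hβB t
  have h1 : α s ∈ Metric.thickening δ A :=
    Metric.mem_thickening_iff.2 ⟨z, hz, hzd.trans_le e1⟩
  have h2 : α s ∈ Metric.thickening δ B := by
    rw [hst]
    exact Metric.mem_thickening_iff.2 ⟨w, hw, hwd.trans_le e1⟩
  exact disjoint_left.1 hdis h1 h2

end Pool.Agent.H90.WC
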