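import Pool.Agent.H90.WC.Basic
import Pool.Agent.H20.WC.CrossC

/-! Moebius maps are continuous on the sphere; a translate which meets both sides of the circle
of a frame in `Z` contains its mark. -/

open Matrix Set Filter Topology

namespace Pool.Agent.H90.WC

lemma tendsto_coe_of_norm {α : Type*} {l : Filter α} {f : α → ℂ}
    (h : Tendsto (fun x => ‖f x‖) l atTop) :
    Tendsto (fun x => (f x : OnePoint ℂ)) l (𝓝 OnePoint.infty) := by
  have h1 : Tendsto f l (Filter.coclosedCompact ℂ) := by
    rw [Filter.coclosedCompact_eq_cocompact, ← Metric.cobounded_eq_cocompact]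
    exact tendsto_norm_atTop_iff_cobounded.1 h
  exact OnePoint.tendsto_coe_infty.comp h1

lemma tendsto_coe_nhds {α : Type*} {l : Filter α} {f : α → ℂ} {z : ℂ} (h : Tendsto f l (𝓝 z)) :
    Tendsto (fun x => (f x : OnePoint ℂ)) l (𝓝 (z : OnePoint ℂ)) :=
  (OnePoint.continuous_coe.tendsto z).comp h

/-- The norm of a nonconstant affine function tends to infinity. -/
lemma tendsto_norm_affine {c d : ℂ} (hc : c ≠ 0) :
    Tendsto (fun z : ℂ => ‖c * z + d‖) (Bornology.cobounded ℂ) atTop := by
  have h1 : Tendsto (fun z : ℂ => ‖c‖ * ‖z‖ - ‖d‖) (Bornology.cobounded ℂ) atTop :=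
    tendsto_atTop_add_const_right _ _
      (tendsto_norm_cobounded_atTop.const_mul_atTop (norm_pos_iff.2 hc))
  refine tendsto_atTop_mono (fun z => ?_) h1
  have := norm_sub_norm_le (c * z) (-d)
  rw [norm_neg, sub_neg_eq_add, norm_mul] at this
  exact this

theorem continuous_act (g : G) : Continuous (act g) := by
  rw [OnePoint.continuous_iff, Filter.coclosedCompact_eq_cocompact,
    ← Metric.cobounded_eq_cocompact]
  have hdet := det_eq g
  constructor
  · rw [act_infty]
    by_cases hc : g 1 0 = 0
    · rw [if_pos hc]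
      rw [hc, mul_zero, sub_zero] at hdet
      have ha : g 0 0 ≠ 0 := left_ne_zero_of_mul (by rw [hdet]; exact one_ne_zero)
      have hd : g 1 1 ≠ 0 := right_ne_zero_of_mul (by rw [hdet]; exact one_ne_zero)
      have e : (fun z : ℂ => act g (z : OnePoint ℂ)) = fun z =>
          ((mob g z : ℂ) : OnePoint ℂ) := by
        funext z
        apply act_coe_of_ne
        rw [hc, zero_mul, zero_add]; exact hd
      rw [e]
      apply tendsto_coe_of_norm
      have e2 : (fun z : ℂ => ‖mob g z‖) = fun z : ℂ => ‖g 0 0 / g 1 1 * z + g 0 1 / g 1 1‖ := by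
        funext z
        unfold mob
        rw [hc, zero_mul, zero_add, add_div, mul_div_right_comm]
      rw [e2]
      exact tendsto_norm_affine (div_ne_zero ha hd)
    · rw [if_neg hc]
      have h1 : Tendsto (mob g) (Bornology.cobounded ℂ) (𝓝 (g 0 0 / g 1 0)) := by
        have h2 : Tendsto (fun z : ℂ => g 0 0 / g 1 0 - (g 1 0)⁻¹ * (g 1 0 * z + g 1 1)⁻¹)
            (Bornology.cobounded ℂ) (𝓝 (g 0 0 / g 1 0 - (g 1 0)⁻¹ * 0)) := by
          refine tendsto_const_nhds.sub (tendsto_const_nhds.mul ?_)
          exact tendsto_inv₀_cobounded.comp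
            (tendsto_norm_atTop_iff_cobounded.1 (tendsto_norm_affine hc))
        rw [mul_zero, sub_zero] at h2
        refine h2.congr' ?_
        filter_upwards [(tendsto_norm_affine (d := g 1 1) hc).eventually (eventually_gt_atTop 0)]
          with z hz
        have hz' : g 1 0 * z + g 1 1 ≠ 0 := norm_pos_iff.1 hz
        unfold mob
        rw [eq_div_iff hz', sub_mul, mul_assoc, inv_mul_cancel₀ hz', mul_one]
        field_simp
        linear_combination hdet
      refine (tendsto_coe_nhds h1).congr' ?_
      filter_upwards [(tendsto_norm_affine (d := g 1 1) hc).eventually (eventually_gt_atTop 0)]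
        with z hz
      exact (act_coe_of_ne (norm_pos_iff.1 hz)).symm
  · rw [continuous_iff_continuousAt]
    intro z
    by_cases h : g 1 0 * z + g 1 1 = 0
    · show Tendsto (fun w : ℂ => act g (w : OnePoint ℂ)) (𝓝 z) (𝓝 (act g (z : OnePoint ℂ)))
      rw [act_coe_of_eq h]
      have hc : g 1 0 ≠ 0 := by
        intro hc
        rw [hc, zero_mul, zero_add] at h
        rw [hc, h] at hdet
        simp at hdet
      have hnum : g 0 0 * z + g 0 1 ≠ 0 := by
        intro hn
        have : (1 : ℂ) = 0 := by
          rw [← hdet]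
          linear_combination (g 0 0) * h - (g 1 0) * hn
        exact one_ne_zero this
      have h3 : Tendsto (fun w : ℂ => (g 1 0 * w + g 1 1)) (𝓝[≠] z) (𝓝[≠] 0) := by
        apply tendsto_nhdsWithin_of_tendsto_nhds_of_eventually_within
        · rw [← h]
          exact ((continuous_const.mul continuous_id).add continuous_const).tendsto z
            |>.mono_left nhdsWithin_le_nhds
        · filter_upwards [self_mem_nhdsWithin] with w hw
          intro h0
          apply hw
          have : g 1 0 * (w - z) = 0 := by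
            have h0' : g 1 0 * w + g 1 1 = 0 := h0
            linear_combination h0' - h
          rcases mul_eq_zero.1 this with h' | h'
          · exact absurd h' hc
          · exact sub_eq_zero.1 h'
      have h4 : Tendsto (fun w : ℂ => ‖(g 1 0 * w + g 1 1)⁻¹‖) (𝓝[≠] z) atTop :=
        tendsto_norm_atTop_iff_cobounded.2 ((tendsto_inv₀_nhdsNE_zero).comp h3)
      have h5 : Tendsto (fun w : ℂ => ‖g 0 0 * w + g 0 1‖) (𝓝[≠] z) (𝓝 ‖g 0 0 * z + g 0 1‖) :=
        ((((continuous_const.mul continuous_id).add continuous_const).norm).tendsto z).mono_left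
          nhdsWithin_le_nhds
      have h6 : Tendsto (fun w : ℂ => ‖mob g w‖) (𝓝[≠] z) atTop := by
        have := h5.pos_mul_atTop (norm_pos_iff.2 hnum) h4
        refine this.congr fun w => ?_
        unfold mob
        rw [div_eq_mul_inv, norm_mul]
      have h7 := tendsto_coe_of_norm h6
      rw [← nhdsNE_sup_pure]
      refine tendsto_sup.2 ⟨?_, ?_⟩
      · refine h7.congr' ?_
        filter_upwards [h3.eventually self_mem_nhdsWithin] with w hw
        exact (act_coe_of_ne hw).symm
      · rw [tendsto_pure_left]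
        intro s hs
        rw [act_coe_of_eq h]
        exact mem_of_mem_nhds hs
    · have h1 : ContinuousAt (mob g) z := by
        unfold mob
        exact ((continuous_const.mul continuous_id).add continuous_const).continuousAt.div
          ((continuous_const.mul continuous_id).add continuous_const).continuousAt h
      have h2 := tendsto_coe_nhds h1
      show Tendsto (fun w : ℂ => act g (w : OnePoint ℂ)) (𝓝 z) (𝓝 (act g (z : OnePoint ℂ)))
      rw [act_coe_of_ne h]
      refine h2.congr' ?_
      have h3 : ∀ᶠ w in 𝓝 z, g 1 0 * w + g 1 1 ≠ 0 :=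
        ((continuous_const.mul continuous_id).add continuous_const).continuousAt.eventually_ne h
      filter_upwards [h3] with w hw
      exact (act_coe_of_ne hw).symm

/-- The finite part of a continuum on the sphere which does not contain infinity. -/
theorem finite_part {K' : Set (OnePoint ℂ)} (hc : IsCompact K') (hp : IsPreconnected K')
    (hi : OnePoint.infty ∉ K') :
    IsCompact {w : ℂ | (w : OnePoint ℂ) ∈ K'} ∧ IsPreconnected {w : ℂ | (w : OnePoint ℂ) ∈ K'} := by
  have hr : K' ⊆ range ((↑) : ℂ → OnePoint ℂ) := by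
    intro x hx
    induction x using OnePoint.rec with
    | infty => exact absurd hx hi
    | coe z => exact mem_range_self z
  constructor
  · exact (OnePoint.isOpenEmbedding_coe.isInducing.isCompact_preimage_iff hr).2 hc
  · exact hp.preimage_of_isOpenMap OnePoint.isOpenEmbedding_coe.injective
      OnePoint.isOpenEmbedding_coe.isOpenMap hr

/-- The preimage of a continuum under a Moebius map is a continuum. -/
theorem act_preimage {K : Set (OnePoint ℂ)} (hc : IsCompact K) (hp : IsPreconnected K) (g : G) :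
    IsCompact {x | act g x ∈ K} ∧ IsPreconnected {x | act g x ∈ K} := by
  have e : {x | act g x ∈ K} = act g⁻¹ '' K := by
    ext x
    constructor
    · intro hx
      exact ⟨act g x, hx, act_inv_act g x⟩
    · rintro ⟨y, hy, rfl⟩
      show act g (act g⁻¹ y) ∈ K
      rw [act_act_inv]; exact hy
  rw [e]
  exact ⟨hc.image (continuous_act _), hp.image _ (continuous_act _).continuousOn⟩

theorem mark_mem {Γ : Subgroup G} {K : Set (OnePoint ℂ)} (h : Hyp Γ K) {q : G} (hq : q ∈ Z Γ K)
    {γ : G} (hγ : γ ∈ Γ)
    (hu : ∃ u : ℂ, 0 < u.im ∧ act (γ⁻¹ * q) (u : OnePoint ℂ) ∈ K)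
    (hv : ∃ v : ℂ, v.im < 0 ∧ act (γ⁻¹ * q) (v : OnePoint ℂ) ∈ K) :
    act (γ⁻¹ * q) OnePoint.infty ∈ K := by
  by_contra hinf
  obtain ⟨u, hu0, hu⟩ := hu
  obtain ⟨v, hv0, hv⟩ := hv
  obtain ⟨c1, p1⟩ := act_preimage h.cpt h.conn.isPreconnected (γ⁻¹ * q)
  obtain ⟨c2, p2⟩ := finite_part c1 p1 hinf
  set B : Set ℂ := {w : ℂ | (w : OnePoint ℂ) ∈ {x | act (γ⁻¹ * q) x ∈ K}} with hB
  obtain ⟨R, hR⟩ := c2.isBounded.exists_norm_le
  set T : ℝ := max R 0 + 1 with hT
  have hT0 : 0 < T := by positivity
  set b : ℝ := min u.im (-v.im) with hb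
  have hb0 : 0 < b := lt_min hu0 (by linarith)
  obtain ⟨γ', hγ', hF, κ, hκ, hκK⟩ := hq T hT0 (b / 2) (by positivity) {γ, -γ}
    ((finite_singleton _).insert _)
  obtain ⟨x1, hx1, hx1'⟩ := hκ.left
  obtain ⟨x2, hx2, hx2'⟩ := hκ.right
  obtain ⟨w, hw1, hw2⟩ := cross_continua hκ.cpt hκ.conn c2 p2 (a := T) (b := b) hT0 hb0
    (fun z hz => by
      have := hκ.im_le z hz
      linarith)
    (fun z hz => by
      have h1 := hR z hz
      have h2 := Complex.abs_re_le_norm z
      have h3 := le_max_left R 0
      linarith)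
    ⟨x1, hx1, hx1'.le⟩ ⟨x2, hx2, hx2'.ge⟩
    ⟨v, hv, by
      have := min_le_right u.im (-v.im)
      linarith⟩
    ⟨u, hu, min_le_left _ _⟩
  have k1 := hκK w hw1
  have k2 : act (γ⁻¹ * q) (w : OnePoint ℂ) ∈ K := hw2
  rw [act_mul] at k1 k2
  rw [mem_insert_iff, mem_singleton_iff, not_or] at hF
  exact h.disj hγ hγ' hF.1 hF.2 k2 k1

end Pool.Agent.H90.WC
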