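import Pool.Agent.H90.WC.Basic

/-! Discrete cocompact subgroups: the two forms of the assumption. -/

open Matrix Set Filter Topology

namespace Pool.Agent.H90.WC

theorem disc_of_discrete (Γ : Subgroup G) [DiscreteTopology Γ] :
    ∃ U : Set G, IsOpen U ∧ (1 : G) ∈ U ∧ ∀ g ∈ Γ, g ∈ U → g = 1 := by
  obtain ⟨U, hU, hU1⟩ := isOpen_induced_iff.1 (isOpen_discrete ({1} : Set Γ))
  refine ⟨U, hU, ?_, fun g hg hgU => ?_⟩
  · have : (1 : Γ) ∈ ((↑) : Γ → G) ⁻¹' U := by rw [hU1]; rfl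
    exact this
  · have : (⟨g, hg⟩ : Γ) ∈ ((↑) : Γ → G) ⁻¹' U := hgU
    rw [hU1, mem_singleton_iff] at this
    exact congrArg Subtype.val this

theorem locallyCompact_G : LocallyCompactSpace G :=
  have : LocallyCompactSpace (Matrix (Fin 2) (Fin 2) ℂ) :=
    (inferInstance : LocallyCompactSpace (Fin 2 → Fin 2 → ℂ))
  (Matrix.SpecialLinearGroup.isClosedEmbedding_val (n := Fin 2) (R := ℂ)).locallyCompactSpace

theorem coc_of_compact (Γ : Subgroup G) [CompactSpace (G ⧸ Γ)] :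
    ∃ C : Set G, IsCompact C ∧ ∀ g : G, ∃ γ ∈ Γ, γ * g ∈ C := by
  have := locallyCompact_G
  choose K hK hKn using fun x : G => exists_compact_mem_nhds x
  have hopen : ∀ x : G, IsOpen (((↑) : G → G ⧸ Γ) '' interior (K x)) := fun x =>
    QuotientGroup.isOpenMap_coe _ isOpen_interior
  obtain ⟨t, ht⟩ := isCompact_univ.elim_finite_subcover
    (fun x : G => ((↑) : G → G ⧸ Γ) '' interior (K x)) hopen (by
      intro y _
      obtain ⟨x, rfl⟩ := QuotientGroup.mk_surjective y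
      exact mem_iUnion.2 ⟨x, x, mem_interior_iff_mem_nhds.2 (hKn x), rfl⟩)
  refine ⟨(⋃ x ∈ t, K x)⁻¹, (t.isCompact_biUnion fun x _ => hK x).inv, fun g => ?_⟩
  obtain ⟨x, hx, k, hk, hkg⟩ := mem_iUnion₂.1 (ht (mem_univ ((g⁻¹ : G) : G ⧸ Γ)))
  refine ⟨k⁻¹ * g⁻¹, QuotientGroup.eq.1 hkg, ?_⟩
  rw [inv_mul_cancel_right, Set.mem_inv, inv_inv]
  exact mem_iUnion₂.2 ⟨x, hx, interior_subset hk⟩

end Pool.Agent.H90.WC
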