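import Pool.Agent.H20.WC.Main
import Pool.Agent.H13.WC.SubCont

/-! The final theorem, from its parts. -/

open Matrix Set Filter Topology

namespace Pool.Agent.H90.WC

theorem hyp_of (Γ : Subgroup G) [DiscreteTopology Γ] [CompactSpace (G ⧸ Γ)]
    {K : Set (OnePoint ℂ)} (hK : IsCompact K) (hc : IsConnected K)
    (hw : ∀ g ∈ Γ, g ≠ 1 → g ≠ -1 → ∀ x ∈ K, act g x ∉ K) : Hyp Γ K :=
  ⟨disc_of_discrete Γ, coc_of_compact Γ, hK, hc, hw⟩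

theorem main_aux {Γ : Subgroup G} {K : Set (OnePoint ℂ)} (h : Hyp Γ K)
    (hns : ∀ R : ℝ, ∃ e > (0 : ℝ), ∀ κ : Set ℂ, IsCompact κ → IsPreconnected κ →
      (∀ z ∈ κ, (z : OnePoint ℂ) ∈ K ∧ ‖z‖ ≤ R) → ∀ x ∈ κ, ∀ y ∈ κ, x ≠ y →
        ∃ z ∈ κ, (1 + e) * dist x y ≤ dist x z + dist z y)
    (hdim : ∀ {A : Set ℂ}, IsCompact A → IsPreconnected A → A.Nontrivial → ∀ {e : ℝ}, 0 < e →
      (∀ κ ⊆ A, IsCompact κ → IsPreconnected κ → ∀ x ∈ κ, ∀ y ∈ κ, x ≠ y →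
        ∃ z ∈ κ, (1 + e) * dist x y ≤ dist x z + dist z y) → 1 < dimH A)
    (hn : K.Nontrivial) : 1 < dimH ((fun z : ℂ => (z : OnePoint ℂ)) ⁻¹' K) := by
  obtain ⟨A, hA, hAc, hAn, hAK⟩ := exists_subcontinuum h.cpt h.conn hn
  obtain ⟨R, hR⟩ := hA.isBounded.exists_norm_le
  obtain ⟨e, he, hns⟩ := hns R
  refine (hdim hA hAc hAn he fun κ hκ h1 h2 x hx y hy hxy => ?_).trans_le
    (dimH_mono fun z hz => hAK z hz)
  exact hns κ h1 h2 (fun z hz => ⟨hAK z (hκ hz), hR z (hκ hz)⟩) x hx y hy hxy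

end Pool.Agent.H90.WC
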